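import Pool.Agent.P.MP_ec5bc9_gt.L9

/-! A projective-metric plane in which the parabolic conics of a dense family of foci and leading
lines are cut out by quadrics is a model of a classical geometry. -/

set_option autoImplicit false

namespace Pool.Agent.Results.MP_ec5bc9_gt.DenseConics

/-- Projective-metric plane of affine type. -/
def AffPlane (M : Set (EuclideanSpace ℝ (Fin 2)))
    (d : EuclideanSpace ℝ (Fin 2) → EuclideanSpace ℝ (Fin 2) → ℝ) : Prop :=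
  IsOpen M ∧ Convex ℝ M ∧ M.Nonempty ∧
  (∀ x ∈ M, ∀ y ∈ M, (d x y = 0 ↔ x = y)) ∧
  (∀ x ∈ M, ∀ y ∈ M, d x y = d y x) ∧
  (∀ x ∈ M, ∀ y ∈ M, ∀ z ∈ M, d x z ≤ d x y + d y z) ∧
  (∀ x ∈ M, Filter.HasBasis (nhdsWithin x M) (fun r : ℝ => 0 < r)
    (fun r => {y | y ∈ M ∧ d x y < r})) ∧
  (∀ x ∈ M, ∀ y ∈ M, ∀ z ∈ M, y ∈ segment ℝ x z → d x z = d x y + d y z) ∧
  (∀ x ∈ M, ∀ y ∈ M, ∀ z ∈ M,
    ¬ Collinear ℝ ({x, y, z} : Set (EuclideanSpace ℝ (Fin 2))) → d x z < d x y + d y z)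

/-- The triples `(p, q, F)` for which the parabolic conic with focus `F` and leading line `pq` is the
zero set in `M` of some polynomial of degree at most two are dense in `M × M × M`. -/
def AffDense (M : Set (EuclideanSpace ℝ (Fin 2)))
    (d : EuclideanSpace ℝ (Fin 2) → EuclideanSpace ℝ (Fin 2) → ℝ) : Prop :=
  M ×ˢ M ×ˢ M ⊆ closure
    {t : EuclideanSpace ℝ (Fin 2) × EuclideanSpace ℝ (Fin 2) × EuclideanSpace ℝ (Fin 2) |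
      ∃ A : Matrix (Fin 3) (Fin 3) ℝ, ∀ X ∈ M,
        (d X t.2.2 = sInf ((fun Y => d X Y) ''
            ((affineSpan ℝ {t.1, t.2.1} : Set (EuclideanSpace ℝ (Fin 2))) ∩ M)) ↔
          dotProduct ![X 0, X 1, 1] (A.mulVec ![X 0, X 1, 1]) = 0)}

/-- After scaling, isometric to the Euclidean plane. -/
def IsEuclidean (M : Set (EuclideanSpace ℝ (Fin 2)))
    (d : EuclideanSpace ℝ (Fin 2) → EuclideanSpace ℝ (Fin 2) → ℝ) : Prop :=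
  ∃ c : ℝ, 0 < c ∧ ∃ f : EuclideanSpace ℝ (Fin 2) → EuclideanSpace ℝ (Fin 2),
    Set.BijOn f M Set.univ ∧ ∀ x ∈ M, ∀ y ∈ M, c * d x y = dist (f x) (f y)

/-- After scaling, isometric to the hyperbolic plane in the Beltrami-Klein disc. -/
def IsKlein (M : Set (EuclideanSpace ℝ (Fin 2)))
    (d : EuclideanSpace ℝ (Fin 2) → EuclideanSpace ℝ (Fin 2) → ℝ) : Prop :=
  ∃ c : ℝ, 0 < c ∧ ∃ f : EuclideanSpace ℝ (Fin 2) → EuclideanSpace ℝ (Fin 2),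
    Set.BijOn f M (Metric.ball 0 1) ∧ ∀ x ∈ M, ∀ y ∈ M,
      Real.cosh (c * d x y) = (1 - inner ℝ (f x) (f y)) /
        Real.sqrt ((1 - ‖f x‖ ^ 2) * (1 - ‖f y‖ ^ 2))

/-- The unit sphere of three-space. -/
def S2 : Set (EuclideanSpace ℝ (Fin 3)) := Metric.sphere 0 1

/-- Projective-metric plane of projective type, as a function on pairs of unit vectors. -/
def ProjPlane (d : EuclideanSpace ℝ (Fin 3) → EuclideanSpace ℝ (Fin 3) → ℝ) : Prop :=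
  (∀ x ∈ S2, ∀ y ∈ S2, (d x y = 0 ↔ (x = y ∨ x = -y))) ∧
  (∀ x ∈ S2, ∀ y ∈ S2, d x y = d y x) ∧
  (∀ x ∈ S2, ∀ y ∈ S2, d (-x) y = d x y) ∧
  (∀ x ∈ S2, ∀ y ∈ S2, ∀ z ∈ S2, d x z ≤ d x y + d y z) ∧
  (∀ x ∈ S2, Filter.HasBasis (nhdsWithin x S2 ⊔ nhdsWithin (-x) S2) (fun r : ℝ => 0 < r)
    (fun r => {y | y ∈ S2 ∧ d x y < r})) ∧
  (∃ L : ℝ, 0 < L ∧ ∀ n : EuclideanSpace ℝ (Fin 3), n ≠ 0 →
    ∃ γ : ℝ → EuclideanSpace ℝ (Fin 3),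
      (∀ t, γ t ∈ S2 ∧ inner ℝ n (γ t) = 0) ∧
      (∀ x ∈ S2, inner ℝ n x = 0 → ∃ t, γ t = x ∨ γ t = -x) ∧
      ∀ s t : ℝ, d (γ s) (γ t) = ⨅ k : ℤ, |s - t - (k : ℝ) * L|) ∧
  (∀ x ∈ S2, ∀ y ∈ S2, ∀ z ∈ S2, LinearIndependent ℝ ![x, y, z] → d x z < d x y + d y z)

/-- The triples `(p, q, F)` of unit vectors for which the parabolic conic with focus `F` and leading
line `pq` is the zero set of some quadratic form are dense. -/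
def ProjDense (d : EuclideanSpace ℝ (Fin 3) → EuclideanSpace ℝ (Fin 3) → ℝ) : Prop :=
  S2 ×ˢ S2 ×ˢ S2 ⊆ closure
    {t : EuclideanSpace ℝ (Fin 3) × EuclideanSpace ℝ (Fin 3) × EuclideanSpace ℝ (Fin 3) |
      t.1 ∈ S2 ∧ t.2.1 ∈ S2 ∧ t.2.2 ∈ S2 ∧ ∃ A : Matrix (Fin 3) (Fin 3) ℝ, ∀ X ∈ S2,
        (d X t.2.2 = sInf ((fun Y => d X Y) ''
            (S2 ∩ (Submodule.span ℝ {t.1, t.2.1} : Submodule ℝ (EuclideanSpace ℝ (Fin 3))))) ↔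
          dotProduct ![X 0, X 1, X 2] (A.mulVec ![X 0, X 1, X 2]) = 0)}

/-- After scaling, isometric to the elliptic plane. -/
def IsElliptic (d : EuclideanSpace ℝ (Fin 3) → EuclideanSpace ℝ (Fin 3) → ℝ) : Prop :=
  ∃ c : ℝ, 0 < c ∧ ∃ f : EuclideanSpace ℝ (Fin 3) → EuclideanSpace ℝ (Fin 3),
    (∀ x ∈ S2, f x ∈ S2) ∧ (∀ z ∈ S2, ∃ x ∈ S2, f x = z ∨ f x = -z) ∧
    ∀ x ∈ S2, ∀ y ∈ S2, c * d x y = Real.arccos |inner ℝ (f x) (f y)|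

theorem result :
    (∀ M d, AffPlane M d → AffDense M d → IsEuclidean M d ∨ IsKlein M d) ∧
    (∀ d, ProjPlane d → ProjDense d → IsElliptic d) := by
  constructor
  · intro M d h hq
    obtain ⟨c, hc0, f, h | h⟩ := Pool.Agent.P.MP_ec5bc9_gt.H13.affine_dense h hq
    · exact Or.inl ⟨c, hc0, f, h⟩
    · exact Or.inr ⟨c, hc0, f, h⟩
  · rintro d ⟨h1, h2, h3, h4, h5, h6, h7⟩ hq
    refine ((Pool.Agent.P.MP_ec5bc9_gt.H13.proj_local_iff h1 h2 h3 h4 h5 h6 h7).1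
      fun O _ => ⟨Set.univ, Filter.univ_mem, ?_⟩).isometry
    simp only [Pool.Agent.P.MP_ec5bc9_gt.H13.GoodP, Set.univ_inter]
    exact hq

end Pool.Agent.Results.MP_ec5bc9_gt.DenseConics
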