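import Pool.Agent.P.MP_ec5bc9_gt.L7

/-! A projective-metric plane has locally quadratic parabolic conics, for a dense family of foci
and leading lines, exactly when its metric is a Cayley-Klein metric of constant curvature in
projective coordinates: Euclidean, hyperbolic or spherical in the affine type, elliptic in the
projective type. -/

set_option autoImplicit false

namespace Pool.Agent.Results.MP_ec5bc9_gt.LocalConics

/-- Projective-metric plane of affine type. -/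
def AffPlane (M : Set (EuclideanSpace ℝ (Fin 2)))
    (d : EuclideanSpace ℝ (Fin 2) → EuclideanSpace ℝ (Fin 2) → ℝ) : Prop :=
  IsOpen M ∧ Convex ℝ M ∧ M.Nonempty ∧
  (∀ x ∈ M, ∀ y ∈ M, (d x y = 0 ↔ x = y)) ∧
  (∀ x ∈ M, ∀ y ∈ M, d x y = d y x) ∧
  (∀ x ∈ M, ∀ y ∈ M, ∀ z ∈ M, d x z ≤ d x y + d y z) ∧
  (∀ x ∈ M, Filter.HasBasis (nhdsWithin x M) (fun r : ℝ => 0 < r)
    (fun r => {y | y ∈ M ∧ d x y < r})) ∧
  (∀ x ∈ M, ∀ y ∈ M, ∀ z ∈ M, y ∈ segment ℝ x z → d x z = d x y + d y z) ∧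
  (∀ x ∈ M, ∀ y ∈ M, ∀ z ∈ M,
    ¬ Collinear ℝ ({x, y, z} : Set (EuclideanSpace ℝ (Fin 2))) → d x z < d x y + d y z)

/-- The triples `(p, q, F)` such that the parabolic conic with focus `F` and leading line `pq`
agrees inside `U` with the zero set of some polynomial of degree at most two. -/
def QuadTriples (M U : Set (EuclideanSpace ℝ (Fin 2)))
    (d : EuclideanSpace ℝ (Fin 2) → EuclideanSpace ℝ (Fin 2) → ℝ) :
    Set (EuclideanSpace ℝ (Fin 2) × EuclideanSpace ℝ (Fin 2) × EuclideanSpace ℝ (Fin 2)) :=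
  {t | ∃ A : Matrix (Fin 3) (Fin 3) ℝ, ∀ X ∈ U,
    (d X t.2.2 = sInf ((fun Y => d X Y) ''
        ((affineSpan ℝ {t.1, t.2.1} : Set (EuclideanSpace ℝ (Fin 2))) ∩ M)) ↔
      dotProduct ![X 0, X 1, 1] (A.mulVec ![X 0, X 1, 1]) = 0)}

/-- Every point has a neighbourhood `U` in which such triples are dense. -/
def LocConics (M : Set (EuclideanSpace ℝ (Fin 2)))
    (d : EuclideanSpace ℝ (Fin 2) → EuclideanSpace ℝ (Fin 2) → ℝ) : Prop :=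
  ∀ O ∈ M, ∃ U ∈ nhds O, U ⊆ M ∧ U ×ˢ U ×ˢ U ⊆ closure (QuadTriples M U d)

/-- The bilinear form `u₂v₂ + e (u₀v₀ + u₁v₁)`. -/
def form (e : ℝ) (u v : Fin 3 → ℝ) : ℝ := u 2 * v 2 + e * (u 0 * v 0 + u 1 * v 1)

/-- After scaling, the metric is the Euclidean, the hyperbolic (Beltrami-Klein) or the spherical
metric in the homogeneous coordinates `u = T (x, y, 1)`. -/
def CayleyKlein (M : Set (EuclideanSpace ℝ (Fin 2)))
    (d : EuclideanSpace ℝ (Fin 2) → EuclideanSpace ℝ (Fin 2) → ℝ) : Prop :=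
  ∃ c : ℝ, 0 < c ∧ ∃ T : Matrix (Fin 3) (Fin 3) ℝ, T.det ≠ 0 ∧
    ∃ u : EuclideanSpace ℝ (Fin 2) → Fin 3 → ℝ, (∀ x, u x = T.mulVec ![x 0, x 1, 1]) ∧
    (((∀ x ∈ M, 0 < u x 2) ∧ ∀ x ∈ M, ∀ y ∈ M, c * d x y =
        Real.sqrt ((u x 0 / u x 2 - u y 0 / u y 2) ^ 2 + (u x 1 / u x 2 - u y 1 / u y 2) ^ 2)) ∨
      ((∀ x ∈ M, 0 < u x 2 ∧ 0 < form (-1) (u x) (u x)) ∧ ∀ x ∈ M, ∀ y ∈ M,
        Real.cosh (c * d x y) = form (-1) (u x) (u y)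
          / Real.sqrt (form (-1) (u x) (u x) * form (-1) (u y) (u y))) ∨
      (∀ x ∈ M, ∀ y ∈ M, c * d x y = Real.arccos (form 1 (u x) (u y)
          / Real.sqrt (form 1 (u x) (u x) * form 1 (u y) (u y)))))

/-- The unit sphere of three-space. -/
def S2 : Set (EuclideanSpace ℝ (Fin 3)) := Metric.sphere 0 1

/-- Projective-metric plane of projective type, as a function on pairs of unit vectors. -/
def ProjPlane (d : EuclideanSpace ℝ (Fin 3) → EuclideanSpace ℝ (Fin 3) → ℝ) : Prop :=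
  (∀ x ∈ S2, ∀ y ∈ S2, (d x y = 0 ↔ (x = y ∨ x = -y))) ∧
  (∀ x ∈ S2, ∀ y ∈ S2, d x y = d y x) ∧
  (∀ x ∈ S2, ∀ y ∈ S2, d (-x) y = d x y) ∧
  (∀ x ∈ S2, ∀ y ∈ S2, ∀ z ∈ S2, d x z ≤ d x y + d y z) ∧
  (∀ x ∈ S2, Filter.HasBasis (nhdsWithin x S2 ⊔ nhdsWithin (-x) S2) (fun r : ℝ => 0 < r)
    (fun r => {y | y ∈ S2 ∧ d x y < r})) ∧
  (∃ L : ℝ, 0 < L ∧ ∀ n : EuclideanSpace ℝ (Fin 3), n ≠ 0 →
    ∃ γ : ℝ → EuclideanSpace ℝ (Fin 3),
      (∀ t, γ t ∈ S2 ∧ inner ℝ n (γ t) = 0) ∧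
      (∀ x ∈ S2, inner ℝ n x = 0 → ∃ t, γ t = x ∨ γ t = -x) ∧
      ∀ s t : ℝ, d (γ s) (γ t) = ⨅ k : ℤ, |s - t - (k : ℝ) * L|) ∧
  (∀ x ∈ S2, ∀ y ∈ S2, ∀ z ∈ S2, LinearIndependent ℝ ![x, y, z] → d x z < d x y + d y z)

/-- The triples `(p, q, F)` of unit vectors such that the parabolic conic with focus `F` and
leading line `pq` agrees inside `U` with the zero set of some quadratic form. -/
def ProjTriples (U : Set (EuclideanSpace ℝ (Fin 3)))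
    (d : EuclideanSpace ℝ (Fin 3) → EuclideanSpace ℝ (Fin 3) → ℝ) :
    Set (EuclideanSpace ℝ (Fin 3) × EuclideanSpace ℝ (Fin 3) × EuclideanSpace ℝ (Fin 3)) :=
  {t | t.1 ∈ S2 ∧ t.2.1 ∈ S2 ∧ t.2.2 ∈ S2 ∧ ∃ A : Matrix (Fin 3) (Fin 3) ℝ, ∀ X ∈ U ∩ S2,
    (d X t.2.2 = sInf ((fun Y => d X Y) ''
        (S2 ∩ (Submodule.span ℝ {t.1, t.2.1} : Submodule ℝ (EuclideanSpace ℝ (Fin 3))))) ↔
      dotProduct ![X 0, X 1, X 2] (A.mulVec ![X 0, X 1, X 2]) = 0)}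

/-- Every point has a neighbourhood `U` in which such triples are dense. -/
def ProjLocConics (d : EuclideanSpace ℝ (Fin 3) → EuclideanSpace ℝ (Fin 3) → ℝ) : Prop :=
  ∀ O ∈ S2, ∃ U ∈ nhds O, (U ∩ S2) ×ˢ (U ∩ S2) ×ˢ (U ∩ S2) ⊆ closure (ProjTriples U d)

/-- After scaling, the metric is the elliptic metric in the coordinates `u = T x`. -/
def Elliptic (d : EuclideanSpace ℝ (Fin 3) → EuclideanSpace ℝ (Fin 3) → ℝ) : Prop :=
  ∃ c : ℝ, 0 < c ∧ ∃ T : Matrix (Fin 3) (Fin 3) ℝ, T.det ≠ 0 ∧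
    ∃ u : EuclideanSpace ℝ (Fin 3) → Fin 3 → ℝ, (∀ x, u x = T.mulVec ![x 0, x 1, x 2]) ∧
    ∀ x ∈ S2, ∀ y ∈ S2, c * d x y = Real.arccos (|form 1 (u x) (u y)|
      / Real.sqrt (form 1 (u x) (u x) * form 1 (u y) (u y)))

theorem result :
    (∀ M d, AffPlane M d → (LocConics M d ↔ CayleyKlein M d)) ∧
    (∀ d, ProjPlane d → (ProjLocConics d ↔ Elliptic d)) :=
  ⟨fun _ _ h => Pool.Agent.P.MP_ec5bc9_gt.H13.local_iff h,
    fun _ ⟨h1, h2, h3, h4, h5, h6, h7⟩ =>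
      Pool.Agent.P.MP_ec5bc9_gt.H13.proj_local_iff h1 h2 h3 h4 h5 h6 h7⟩

end Pool.Agent.Results.MP_ec5bc9_gt.LocalConics
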